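import Pool.Agent.Work.MP_298761_vhc.Api

/-!
# Hyperplane sections: degrees above the middle; nilpotence

Three statements on the smooth members `Y` of the linear systems of very ample line bundles on
`X`, for all `X`, in all codimensions.  The nilpotence of numerically trivial correspondences.
-/

open CategoryTheory MonoidalCategory CartesianMonoidalCategory

universe u v w b f

namespace Pool.VHC.Geometry

open Pool.KC

variable {V : Type u} [Category.{v} V] [CartesianMonoidalCategory V]
variable {D : WeilData.{u, v, w, 0} V ℝ} (G : Geometry.{u, v, w, b, f} D)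

/-- **VHC for hyperplane sections above the middle**: VHC for the families of smooth members `Y`
of linear systems of very ample line bundles on `X`, and for the sections given by the rational
classes of degree `2 i` on `X`, for all `i` with `2 i > dim Y`.  (In these degrees, every class
on `Y` is the restriction of a class on `X`.) -/
def VHCUpper : Prop := ∀ (X : V) (M : G.Bund X) (i : ℕ), 1 ≤ D.dim X → D.dim X ≤ 2 * i →
  ∀ a ∈ D.deg X (2 * i), a ∈ G.rat X → ∀ s t : G.Pt (G.univ M),
    D.pb (G.emb M s) a ∈ D.C (G.member M s) i → D.pb (G.emb M t) a ∈ D.C (G.member M t) i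

/-- **The Lefschetz standard conjecture `A(X)`, one step short**, for all projective `X`: for
`2 i + k = dim X + 1`, multiplication by `(c M)^k` maps the algebraic classes of codimension `i`
onto those of codimension `i + k`.  (`A(X)` is this statement for `2 i + k = dim X`.) -/
def ShortLefschetz : Prop := ∀ (X : V) (M : G.Bund X) (i k : ℕ), 2 * i + k = D.dim X + 1 →
  ∀ a ∈ D.C X (i + k), ∃ e ∈ D.C X i, G.c M ^ k * e = a

/-- **The weak Lefschetz theorem for algebraic classes of small dimension**: for every smooth
member `Y` of the linear system of a very ample line bundle on `X`, and all `i` with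
`2 i > dim Y`, every algebraic class of codimension `i + 1` on `X` is the push-forward of an
algebraic class of codimension `i` on `Y`. -/
def WeakLefschetz : Prop := ∀ (X : V) (M : G.Bund X) (s : G.Pt (G.univ M)) (i : ℕ),
  1 ≤ D.dim X → D.dim X ≤ 2 * i → ∀ a ∈ D.C X (i + 1),
    ∃ y ∈ D.C (G.member M s) i, G.IsPush M s y a

end Pool.VHC.Geometry

namespace Pool.VHC

open Pool.KC

/-- **The nilpotence conjecture** for `Z`: if an algebraic correspondence `z` of degree zero from
`Z` to itself is numerically equivalent to zero, then its action on `H(Z)` is nilpotent. -/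
def NilConj {V : Type u} [Category.{v} V] [CartesianMonoidalCategory V]
    (D : WeilData.{u, v, w, 0} V ℝ) (Z : V) : Prop :=
  ∀ z ∈ D.C (Z ⊗ Z) (D.dim Z), D.NumEq (D.dim Z) z 0 →
    ∃ r : ℕ, ∀ a : D.H Z, (fun a => D.act z a)^[r] a = 0

end Pool.VHC
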