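import Pool.Agent.Work.MP_298761_vhc.Final

/-!
The projector attached to a suitable orthonormal family is the restriction to the even classes
of an algebraic correspondence.
-/

open CategoryTheory MonoidalCategory CartesianMonoidalCategory Polynomial

universe u v w b

namespace Pool.VHC

open Pool.KC

variable {V : Type u} [Category.{v} V] [CartesianMonoidalCategory V]
variable {T : WeilTheory.{u, v, w, 0} V ℝ}

/-- the projector onto the even classes -/
noncomputable def evp (T : WeilTheory.{u, v, w, 0} V ℝ) (Z : V) : Module.End ℝ (T.H Z) :=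
  ∑ i ∈ Finset.range (T.dim Z + 1), T.proj Z (2 * i)

theorem evp_even {Z : V} (i : ℕ) (x : T.H Z) (hx : x ∈ T.deg Z (2 * i)) : evp T Z x = x := by
  unfold evp
  rw [LinearMap.sum_apply]
  by_cases hi : i < T.dim Z + 1
  · rw [Finset.sum_eq_single i]
    · exact T.proj_same hx
    · intro j _ hj
      exact T.proj_ne hx (by omega)
    · intro h
      exact absurd (Finset.mem_range.mpr hi) h
  · have h0 : x = 0 := T.deg_eq_zero hx (by omega)
    rw [h0]
    exact Finset.sum_eq_zero fun j _ => map_zero _

theorem evp_odd {Z : V} (i : ℕ) (x : T.H Z) (hx : x ∈ T.deg Z (2 * i + 1)) : evp T Z x = 0 := by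
  unfold evp
  rw [LinearMap.sum_apply]
  exact Finset.sum_eq_zero fun j _ => T.proj_ne hx (by omega)

/-- if `B` is algebraic, and `B - π/2` is skew and commutes with `π` on even classes, then `π`
is the restriction to the even classes of an algebraic correspondence -/
theorem pi_even {G : Pol.{u, v, w, b} T} {Z : V} {M : G.Bund Z} {m r : ℕ}
    {g : Fin r → T.H Z} (h : Frame G M m r g) {B S : Module.End ℝ (T.H Z)}
    (hB : B ∈ T.ops Z) (hBS : ∀ x, B x = S x + (1 / 2 : ℝ) • Frame.pi T m (G.c M) g x)
    (hS : Skew G M S)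
    (hc : ∀ (i : ℕ), ∀ x ∈ T.deg Z (2 * i),
      Frame.pi T m (G.c M) g (S x) = S (Frame.pi T m (G.c M) g x)) :
    ∃ u ∈ T.ops Z, ∀ (i : ℕ), ∀ x ∈ T.deg Z (2 * i), u x = Frame.pi T m (G.c M) g x := by
  set q := Frame.pi T m (G.c M) g with hq
  set e : Module.End ℝ (T.H Z) := evp T Z with he
  have hz0 : ∀ (i : ℕ), ∀ x ∈ T.deg Z (2 * i), e x = x := evp_even
  have hz1 : ∀ (i : ℕ), ∀ x ∈ T.deg Z (2 * i + 1), e x = 0 := evp_odd
  have hqq : ∀ x, q (q x) = q x := fun x => congrArg (fun t : Module.End ℝ (T.H Z) => t x) h.pi_pi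
  have hqd : ∀ {i : ℕ} {x : T.H Z}, x ∈ T.deg Z i → q x ∈ T.deg Z i := fun hx => h.pi_deg hx
  have hqodd : ∀ (i : ℕ), ∀ x ∈ T.deg Z (2 * i + 1), q x = 0 := fun i x hx => h.pi_odd hx
  have hBd : ∀ {i : ℕ} {x : T.H Z}, x ∈ T.deg Z i → B x ∈ T.deg Z i := fun hx =>
    T.ops_deg hB hx
  have hBq : ∀ (i : ℕ), ∀ x ∈ T.deg Z (2 * i), B (q x) = q (B x) := by
    intro i x hx
    rw [hBS, hBS x, map_add, map_smul, hqq, hc i x hx]
  have heq : e * q = q := by
    refine end_ext ?_ ?_
    · intro i x hx
      exact hz0 i _ (hqd hx)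
    · intro i x hx
      rw [Module.End.mul_apply, hqodd i x hx, map_zero]
  have hqe : q * e = q := by
    refine end_ext ?_ ?_
    · intro i x hx
      rw [Module.End.mul_apply, hz0 i x hx]
    · intro i x hx
      rw [Module.End.mul_apply, hz1 i x hx, map_zero, hqodd i x hx]
  have hee : e * e = e := by
    refine end_ext ?_ ?_
    · intro i x hx
      rw [Module.End.mul_apply, hz0 i x hx, hz0 i x hx]
    · intro i x hx
      rw [Module.End.mul_apply, hz1 i x hx, map_zero]
  have hqq' : q * q = q := h.pi_pi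
  have hBe : B * e = e * B := by
    refine end_ext ?_ ?_
    · intro i x hx
      rw [Module.End.mul_apply, Module.End.mul_apply, hz0 i x hx, hz0 i _ (hBd hx)]
    · intro i x hx
      rw [Module.End.mul_apply, Module.End.mul_apply, hz1 i x hx, hz1 i _ (hBd hx), map_zero]
  have hBq' : B * q = q * B := by
    refine end_ext ?_ ?_
    · intro i x hx
      exact hBq i x hx
    · intro i x hx
      rw [Module.End.mul_apply, Module.End.mul_apply, hqodd i x hx, hqodd i _ (hBd hx), map_zero]
  obtain ⟨f, hf1, hf2⟩ := exists_poly B (e - q) q (by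
      rw [sub_mul, mul_sub, mul_sub, hee, heq, hqe, hqq']
      abel) hqq' (by rw [mul_sub, sub_mul, hBe, hBq']) hBq' (by
    intro p hp v hv hv1 hv2 w hw hw1 hw2
    -- homogeneous components
    have hcomp : ∀ x : T.H Z, x ≠ 0 → ∃ j, T.proj Z j x ≠ 0 := by
      intro x hx
      by_contra hcon
      push Not at hcon
      apply hx
      apply T.ext_proj
      intro j
      rw [hcon j, map_zero]
    have hBp : ∀ j x, B (T.proj Z j x) = T.proj Z j (B x) := by
      intro j x
      exact congrArg (fun t : Module.End ℝ (T.H Z) => t x) (T.ops_mul_proj hB j)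
    have hep : ∀ j x, e (T.proj Z j x) = T.proj Z j (e x) := by
      intro j x
      refine T.hind (P := fun x => e (T.proj Z j x) = T.proj Z j (e x)) (by simp) ?_ ?_ x
      · intro k a ha
        rcases Nat.even_or_odd' k with ⟨k', rfl | rfl⟩
        · rw [hz0 k' a ha]
          by_cases hk : 2 * k' = j
          · subst hk
            rw [T.proj_same ha, hz0 k' a ha]
          · rw [T.proj_ne ha hk, map_zero]
        · rw [hz1 k' a ha]
          by_cases hk : 2 * k' + 1 = j
          · subst hk
            rw [T.proj_same ha, hz1 k' a ha, map_zero]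
          · rw [T.proj_ne ha hk, map_zero, map_zero]
      · intro a b h1 h2
        simp only [map_add, h1, h2]
    have hqp : ∀ j x, q (T.proj Z j x) = T.proj Z j (q x) := by
      intro j x
      refine T.hind (P := fun x => q (T.proj Z j x) = T.proj Z j (q x)) (by simp) ?_ ?_ x
      · intro k a ha
        by_cases hk : k = j
        · subst hk
          rw [T.proj_same ha, T.proj_same (hqd ha)]
        · rw [T.proj_ne ha hk, T.proj_ne (hqd ha) hk, map_zero]
      · intro a b h1 h2
        simp only [map_add, h1, h2]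
    obtain ⟨v', j, hv'0, hv'd, hv'q, hv'p⟩ : ∃ v' j, v' ≠ 0 ∧ v' ∈ T.deg Z (2 * j) ∧ q v' = 0 ∧
        aeval B p v' = 0 := by
      obtain ⟨j, hj⟩ := hcomp v hv
      have h1 : e (T.proj Z j v) - q (T.proj Z j v) = T.proj Z j v := by
        rw [hep, hqp, ← map_sub]
        congr 1
      have h2 : aeval B p (T.proj Z j v) = 0 := by
        rw [aeval_comm (hBp j), hv2, map_zero]
      have h3 := T.proj_mem j v
      rcases Nat.even_or_odd' j with ⟨j, rfl | rfl⟩
      · refine ⟨_, j, hj, h3, ?_, h2⟩
        rw [hz0 j _ h3] at h1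
        exact sub_eq_self.mp h1
      · rw [hz1 j _ h3, hqodd j _ h3, sub_zero] at h1
        exact absurd h1.symm hj
    obtain ⟨w', j', hw'0, hw'd, hw'q, hw'p⟩ : ∃ w' j, w' ≠ 0 ∧ w' ∈ T.deg Z (2 * j) ∧
        q w' = w' ∧ aeval B p w' = 0 := by
      obtain ⟨j, hj⟩ := hcomp w hw
      have h1 : q (T.proj Z j w) = T.proj Z j w := by
        rw [hqp, hw1]
      have h2 : aeval B p (T.proj Z j w) = 0 := by
        rw [aeval_comm (hBp j), hw2, map_zero]
      have h3 := T.proj_mem j w
      rcases Nat.even_or_odd' j with ⟨j, rfl | rfl⟩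
      · exact ⟨_, j, hj, h3, h1, h2⟩
      · rw [hqodd j _ h3] at h1
        exact absurd h1.symm hj
    have bv : B v' = S v' := by rw [hBS, hv'q, smul_zero, add_zero]
    have bbv : B (B v') = S (S v') := by
      rw [bv, hBS, hc j v' hv'd, hv'q, map_zero, smul_zero, add_zero]
    have bw : B w' = S w' + (1 / 2 : ℝ) • w' := by rw [hBS, hw'q]
    have bbw : B (B w') = S (S w') + S w' + (1 / 4 : ℝ) • w' := by
      have h1 : B (S w') = S (S w') + (1 / 2 : ℝ) • S w' := by
        rw [hBS, hc j' w' hw'd, hw'q]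
      rw [bw, map_add, map_smul, h1, bw, smul_add, smul_smul]
      module
    rcases irreducible_cases hp with ⟨r', c, hr, rfl⟩ | ⟨r', a, c, hr, rfl, hroot⟩
    · rw [aeval_lin] at hv'p hw'p
      have h1 := (smul_eq_zero.mp hv'p).resolve_left hr
      have h2 := (smul_eq_zero.mp hw'p).resolve_left hr
      rw [bv] at h1
      rw [bw] at h2
      have h3 := hS.no_eigen h.dim hv'd hv'0 h1
      have h4 := hS.no_eigen h.dim hw'd hw'0 (c := 1 / 2 + c) (by
        rw [add_smul, ← add_assoc]
        exact h2)
      rw [h3] at h4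
      norm_num at h4
    · rw [aeval_quad] at hv'p hw'p
      have h1 := (smul_eq_zero.mp hv'p).resolve_left hr
      have h2 := (smul_eq_zero.mp hw'p).resolve_left hr
      rw [bbv, bv] at h1
      rw [bbw, bw] at h2
      have h3 := hS.no_pair h.dim hv'd hv'0 h1
      have h4 := hS.no_pair h.dim hw'd hw'0 (a := 1 + a) (c := 1 / 4 + a / 2 + c) (by
        rw [← h2]
        module)
      rcases h3 with h3 | h3
      · rcases h4 with h4 | h4
        · rw [h3] at h4
          norm_num at h4
        · apply hroot (1 / 2)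
          rw [h3] at h4 ⊢
          linarith
      · apply hroot 0
        rw [h3]
        ring)
  have h1 : q = aeval B f * e := by
    have : e = (e - q) + q := by abel
    rw [this, mul_add, hf1, hf2, zero_add]
  refine ⟨aeval B f, aeval_mem_ops hB f, fun i x hx => ?_⟩
  rw [h1, Module.End.mul_apply, hz0 i x hx]

end Pool.VHC
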