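import Pool.Agent.Work.MP_298761_ls.Even

/-!
The middle degrees, without the sign conjecture.
-/

open CategoryTheory MonoidalCategory CartesianMonoidalCategory

universe u v w b

namespace Pool.VHC

open Pool.KC

variable {V : Type u} [Category.{v} V] [CartesianMonoidalCategory V]
variable {T : WeilTheory.{u, v, w, 0} V ℝ} (G : Pol.{u, v, w, b} T)

namespace Pol

theorem pi_evn (hyp : G.Div) {Z : V} {M : G.Bund Z} {m r : ℕ}
    {g : Fin r → T.H Z} (h : Frame G M m r g) (hg : ∀ i, g i ∈ G.K0 M m)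
    (hspan : ∀ x ∈ G.K0 M m, ∑ i, ((-1) ^ m * G.Q M x (g i)) • g i = x) :
    ∃ u ∈ T.ops Z, ∀ (i : ℕ), ∀ x ∈ T.deg Z (2 * i), u x = Frame.pi T m (G.c M) g x := by
  obtain ⟨e, he, he1, he2⟩ := G.exists_symm hyp h
  have hdim := h.dim
  set q := Frame.pi T m (G.c M) g with hq
  set B : Module.End ℝ (T.H Z) := T.act e with hB
  have hBo : B ∈ T.ops Z := ⟨e, he, rfl⟩
  have hBd : ∀ {i : ℕ} {x : T.H Z}, x ∈ T.deg Z i → B x ∈ T.deg Z i := fun hx =>
    T.ops_deg hBo hx
  let S : Module.End ℝ (T.H Z) := B - (1 / 2 : ℝ) • q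
  have hS : ∀ x, S x = B x - (1 / 2 : ℝ) • q x := fun x => rfl
  -- the relation `L B + B L = L π`
  have hrel : ∀ x, G.c M * B x + B (G.c M * x) = G.c M * q x := by
    intro x
    have h1 : T.act (G.c (G.box M M) * e) x = B (G.c M * x) + G.c M * B x := by
      rw [G.c_box, add_mul, T.act_add, LinearMap.add_apply, T.act_fst_mul,
        T.act_snd_mul (G.c_deg M), G.c_comm M x]
    rw [add_comm, ← h1, he1, h.l_pi, T.act_smul, LinearMap.smul_apply]
  have hwq : ∀ x, G.weil Z (q x) = q (G.weil Z x) := by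
    intro x
    apply G.weil_act
    rw [map_smul]
    congr 1
    unfold Frame.kap1
    rw [map_sum]
    refine Finset.sum_congr rfl fun i _ => ?_
    rw [map_add, G.weil_mul, G.weil_mul, G.weil_pull, G.weil_pull, G.weil_pull, G.weil_pull,
      G.weil_alg (h.alg i), G.Kt_weil M hdim (hg i).1]
  have hskew : Skew G M S :=
    { deg := fun hx => sub_mem (hBd hx) (Submodule.smul_mem _ _ (h.pi_deg hx))
      anti := by
        intro x
        have h1 := hrel x
        have h2 : q (G.c M * x) = G.c M * q x := h.pi_l x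
        rw [hS, hS, mul_sub, mul_smul_comm, h2, eq_sub_of_add_eq h1]
        module
      sym := by
        intro i j x y hx hy
        have h1 : T.tr Z (B x * y) = T.tr Z (x * B y) := by
          rw [hB, T.tr_act_sw e hx hy, he2]
          exact T.tr_even_comm (hBd hy) x
        rw [hS, hS, sub_mul, mul_sub, map_sub, map_sub, h1, smul_mul_assoc, mul_smul_comm,
          map_smul, map_smul, h.tr_pi]
      weil := by
        intro x
        have h1 : G.weil Z (B x) = B (G.weil Z x) := G.weil_act (G.weil_alg he) x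
        rw [hS, hS, map_sub, map_smul, h1, hwq] }
  have hBS : ∀ x, B x = S x + (1 / 2 : ℝ) • q x := by
    intro x
    rw [hS]
    abel
  -- `S` preserves `Kt`
  have hKt : ∀ x ∈ G.Kt M m, S x ∈ G.Kt M m := by
    intro x hx
    refine ⟨hskew.deg hx.1, ?_, ?_⟩
    · rw [hskew.anti, mul_neg, hskew.anti, neg_neg, hx.2.1, map_zero]
    · rw [hskew.anti, hS]
      apply neg_mem
      apply sub_mem
      · exact T.act_mem he hx.2.2 (by omega)
      · apply Submodule.smul_mem
        rw [hq, Frame.pi_apply]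
        refine Submodule.smul_mem _ _ (sum_mem fun i _ => ?_)
        have h1 : T.tr Z (G.c M * x * (G.c M * g i)) = 0 := by
          refine T.tr_mul_ne (T.C_deg _ _ hx.2.2) (h.deg_lg i) ?_
          omega
        rw [h1, zero_smul, zero_add]
        exact Submodule.smul_mem _ _ (h.alg i)
  -- `S` preserves `N`
  have hN : ∀ x ∈ G.Kt M m, x ∈ T.C Z m → S x ∈ T.C Z m := by
    intro x hx hx'
    have h1 : q x = 0 := by
      rw [hq, Frame.pi_apply]
      have : ∀ i, T.tr Z (x * (G.c M * g i)) • g i + T.tr Z (x * g i) • (G.c M * g i) = 0 := by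
        intro i
        rw [h.tr_gg hx.1, ← G.Q_apply', G.Q_comm M hx.1, (hg i).2 x hx hx', zero_smul, zero_smul,
          add_zero]
      rw [Finset.sum_congr rfl fun i _ => this i, Finset.sum_const_zero, smul_zero]
    rw [hS, h1, smul_zero, sub_zero]
    exact T.act_mem he hx' (by omega)
  -- `S` preserves `K0`
  have hK0 : ∀ x ∈ G.K0 M m, S x ∈ G.K0 M m := by
    rintro x ⟨hx, hx'⟩
    refine ⟨hKt x hx, fun y hy hy' => ?_⟩
    have h1 : G.Q M (S x) y = - G.Q M x (S y) := by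
      have hLy : G.c M * y ∈ T.deg Z (2 * (m + 1)) := T.C_deg _ _ hy.2.2
      have h2 : S (G.c M * y) = - (G.c M * S y) := by rw [hskew.anti, neg_neg]
      rw [G.Q_apply', G.Q_apply', hskew.sym hx.1 hLy, h2, mul_neg, map_neg]
    rw [h1, hx' _ (hKt y hy) (hN y hy hy'), neg_zero]
  -- `S` preserves the span
  have hK0sp : ∀ x ∈ G.K0 M m, x ∈ Frame.sp T (G.c M) g ∧ G.c M * x ∈ Frame.sp T (G.c M) g := by
    intro x hx
    rw [← hspan x hx, Finset.mul_sum]
    constructor
    · exact sum_mem fun i _ => Submodule.smul_mem _ _ (Submodule.subset_span (Or.inl ⟨i, rfl⟩))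
    · refine sum_mem fun i _ => ?_
      rw [mul_smul_comm]
      exact Submodule.smul_mem _ _ (Submodule.subset_span (Or.inr ⟨i, rfl⟩))
  have hSsp : ∀ x ∈ Frame.sp T (G.c M) g, S x ∈ Frame.sp T (G.c M) g := by
    intro x hx
    unfold Frame.sp at hx
    induction hx using Submodule.span_induction with
    | mem x hx =>
      rcases hx with ⟨i, rfl⟩ | ⟨i, rfl⟩
      · exact (hK0sp _ (hK0 _ (hg i))).1
      · change S (G.c M * g i) ∈ _
        have h2 : S (G.c M * g i) = - (G.c M * S (g i)) := by rw [hskew.anti, neg_neg]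
        rw [h2]
        exact neg_mem (hK0sp _ (hK0 _ (hg i))).2
    | zero => rw [map_zero]; exact zero_mem _
    | add x y _ _ hx hy => rw [map_add]; exact add_mem hx hy
    | smul c x _ hx => rw [map_smul]; exact Submodule.smul_mem _ _ hx
  refine pi_even h hBo hBS hskew ?_
  intro j x hx
  change q (S x) = S (q x)
  have hd : q (S x) - S (q x) ∈ Frame.sp T (G.c M) g :=
    sub_mem (Frame.pi_mem_sp _ _ _ _) (hSsp _ (Frame.pi_mem_sp _ _ _ _))
  have hqx : q x ∈ T.deg Z (2 * j) := h.pi_deg hx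
  have horth : ∀ (k : ℕ) (y : T.H Z), y ∈ T.deg Z (2 * k) → y ∈ Frame.sp T (G.c M) g →
      T.tr Z ((q (S x) - S (q x)) * y) = 0 := by
    intro k y hy hy'
    have h1 : T.tr Z (q (S x) * y) = T.tr Z (S x * y) := by
      rw [hq, h.tr_pi, h.pi_of_mem hy']
    have h2 : T.tr Z (S (q x) * y) = T.tr Z (S x * y) := by
      rw [hskew.sym hqx hy, hq, h.tr_pi, h.pi_of_mem (hSsp y hy'), hskew.sym hx hy]
    rw [sub_mul, map_sub, h1, h2, sub_self]
  have hzero : q (q (S x) - S (q x)) = 0 := by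
    rw [hq, Frame.pi_apply, ← hq]
    have : ∀ i, T.tr Z ((q (S x) - S (q x)) * (G.c M * g i)) • g i +
        T.tr Z ((q (S x) - S (q x)) * g i) • (G.c M * g i) = 0 := by
      intro i
      rw [horth _ _ (h.deg_lg i) (Submodule.subset_span (Or.inr ⟨i, rfl⟩)),
        horth _ _ (h.deg i) (Submodule.subset_span (Or.inl ⟨i, rfl⟩)), zero_smul, zero_smul,
        add_zero]
    rw [Finset.sum_congr rfl fun i _ => this i, Finset.sum_const_zero, smul_zero]
  rw [hq] at hzero
  rw [h.pi_of_mem (by rw [← hq]; exact hd), ← hq] at hzero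
  exact sub_eq_zero.mp hzero

/-- algebraic classes are orthogonal to the `L g i` -/
theorem orth' (hyp : G.Div) {Z : V} {M : G.Bund Z} {m r : ℕ}
    {g : Fin r → T.H Z} (h : Frame G M m r g) (hg : ∀ i, g i ∈ G.K0 M m)
    (hspan : ∀ x ∈ G.K0 M m, ∑ i, ((-1) ^ m * G.Q M x (g i)) • g i = x) {x : T.H Z}
    (hx : x ∈ T.C Z m) (i : Fin r) : T.tr Z (x * (G.c M * g i)) = 0 := by
  have hdim := h.dim
  have hxd : x ∈ T.deg Z (2 * m) := T.C_deg _ _ hx
  obtain ⟨u, ⟨z, hz, rfl⟩, hzq⟩ := G.pi_evn hyp h hg hspan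
  have h1 : Frame.pi T m (G.c M) g x ∈ T.C Z m := by
    rw [← hzq m x hxd]
    exact T.act_mem hz hx (by omega)
  have h2 : Frame.pi T m (G.c M) g x ∈ G.K0 M m := by
    rw [Frame.pi_apply]
    refine Submodule.smul_mem _ _ (sum_mem fun j _ => ?_)
    rw [h.tr_gg hxd, zero_smul, add_zero]
    exact Submodule.smul_mem _ _ (hg j)
  have h3 : Frame.pi T m (G.c M) g x = 0 := by
    by_contra hne
    have h4 := G.Kt_pos M hdim h2.1 hne
    rw [h2.2 _ h2.1 h1, mul_zero] at h4
    exact lt_irrefl _ h4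
  have h5 : T.tr Z (Frame.pi T m (G.c M) g x * (G.c M * g i)) = T.tr Z (x * (G.c M * g i)) := by
    rw [h.tr_pi, h.pi_lg]
  rw [← h5, h3, zero_mul, map_zero]

theorem kap2_orth' (hyp : G.Div) {Z : V} {M : G.Bund Z} {m r : ℕ}
    {g : Fin r → T.H Z} (h : Frame G M m r g) (hg : ∀ i, g i ∈ G.K0 M m)
    (hspan : ∀ x ∈ G.K0 M m, ∑ i, ((-1) ^ m * G.Q M x (g i)) • g i = x) {e : T.H (Z ⊗ Z)}
    (he : e ∈ T.C (Z ⊗ Z) (2 * m)) : T.tr (Z ⊗ Z) (Frame.kap2 T (G.c M) g * e) = 0 := by
  have hdim := h.dim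
  unfold Frame.kap2
  rw [Finset.sum_mul, map_sum]
  refine Finset.sum_eq_zero fun i _ => ?_
  have h1 : T.pull (fst Z Z) (G.c M * g i) * T.pull (snd Z Z) (G.c M * g i) * e =
      T.pull (fst Z Z) (G.c M * g i) * e * T.pull (snd Z Z) (G.c M * g i) := by
    rw [mul_assoc, ← T.even_comm (T.C_deg _ _ he), ← mul_assoc]
  rw [h1, ← T.tr_act]
  exact G.orth' hyp h hg hspan (T.act_mem he (h.alg i) (by omega)) i

end Pol

end Pool.VHC
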