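import Pool.Agent.Work.MP_298761_ls.NilSign
import Pool.Agent.Work.MP_298761_ls.Api

/-!
The equivalence of five statements on hyperplane sections.
-/

open CategoryTheory MonoidalCategory CartesianMonoidalCategory

universe u v w b f

namespace Pool.VHC

open Pool.KC

variable {V : Type u} [Category.{v} V] [CartesianMonoidalCategory V]

namespace Geo

variable {T : WeilTheory.{u, v, w, 0} V ℝ} (G : Geo.{u, v, w, b, f} T)

/-- two classes on a member with the same push-forward -/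
theorem eq_of_push {X : V} (M : G.Bund X) {i : ℕ} (hX : 1 ≤ T.dim X) (hi : T.dim X ≤ 2 * i)
    (t : G.Pt (G.univ M)) {y y' : T.H (G.fib (G.univ M) t)}
    (hy : y ∈ T.deg _ (2 * i)) (hy' : y' ∈ T.deg _ (2 * i))
    (h : ∀ e : T.H X, T.tr _ (T.pull (G.inc M t) e * y) = T.tr _ (T.pull (G.inc M t) e * y')) :
    y = y' := by
  have hdt := G.hyp_dim M t hX
  rw [← sub_eq_zero]
  apply T.eq_zero_of_deg (sub_mem hy hy')
  intro j hj z hz
  obtain ⟨e, _, rfl⟩ := G.hyp_weak M t hX j (by omega) z hz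
  change T.tr _ (T.pull (G.inc M t) e * _) = 0
  rw [mul_sub, map_sub, h, sub_self]

/-- if the restriction of `a` to a member is algebraic, then `c M * a` is algebraic -/
theorem mul_mem_of_pull {X : V} (M : G.Bund X) {i : ℕ} (hX : 1 ≤ T.dim X) {a : T.H X}
    (ha : a ∈ T.deg X (2 * i)) (s : G.Pt (G.univ M))
    (hs : T.pull (G.inc M s) a ∈ T.C (G.fib (G.univ M) s) i) : G.c M * a ∈ T.C X (i + 1) := by
  have hds := G.hyp_dim M s hX
  have htr := G.hyp_tr M s hX
  change ∀ e : T.H X, T.tr _ (T.pull (G.inc M s) e) = T.tr X (e * G.c M) at htr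
  have h3 : T.gys (G.inc M s) (T.pull (G.inc M s) a) ∈ T.C X (i + 1) :=
    T.gys_mem _ hs (by omega)
  have h1 : G.c M * a = T.gys (G.inc M s) (T.pull (G.inc M s) a) := by
    rw [← sub_eq_zero]
    apply T.nondeg
    intro e
    rw [mul_sub, map_sub, sub_eq_zero, ← T.tr_even_comm (T.C_deg _ _ h3),
      T.tr_gys _ (T.C_deg _ _ hs), ← map_mul, htr, G.c_comm, ← mul_assoc,
      T.even_comm (i := i) ha e]
  rw [h1]
  exact h3

/-- push-forward of a restriction -/
theorem tr_pull_mul {X : V} (M : G.Bund X) (hX : 1 ≤ T.dim X) (s : G.Pt (G.univ M)) (e a : T.H X) :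
    T.tr _ (T.pull (G.inc M s) e * T.pull (G.inc M s) a) = T.tr X (e * (G.c M * a)) := by
  have htr := G.hyp_tr M s hX
  change ∀ e : T.H X, T.tr _ (T.pull (G.inc M s) e) = T.tr X (e * G.c M) at htr
  rw [← map_mul, htr, G.c_comm, mul_assoc]

end Geo

namespace Geometry

variable {D : WeilData.{u, v, w, 0} V ℝ} (G : Geometry.{u, v, w, b, f} D)

theorem upper_of_vhc (h : D.IsWeil) (h3 : G.VHC) (h2 : G.IsGeometric) : G.VHCUpper := by
  intro X M i _ _ a ha har s t hs
  unfold Geometry.emb at hs ⊢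
  rw [h.pull.comp] at hs ⊢
  exact h3 (G.univ M) i _ (h.pull.deg _ _ _ _ _ ha) (h2.rational.pull _ _ _ _ har) s t hs

theorem hyperplane_of_upper (h3 : G.VHCUpper) : G.VHCHyperplane :=
  fun X M m h0 hm a ha har s t hs => h3 X M m (by omega) (by omega) a ha har s t hs

theorem short_of_middle (h : D.IsWeil) (h1 : G.IsPolarized) (h3 : G.MiddleSurjective) :
    G.ShortLefschetz := by
  intro X M i k hik a ha
  rcases Nat.eq_zero_or_pos k with hk | hk
  · subst hk
    exact ⟨a, ha, by rw [pow_zero, one_mul]⟩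
  · obtain ⟨k, rfl⟩ : ∃ j, k = j + 1 := ⟨k - 1, by omega⟩
    exact (G.toPol h h1).onto_two ((G.div_iff h h1).mp h3) M (i := i) (k := k)
      (by change 2 * i + k = D.dim X; omega) ha

theorem weak_of_short (h : D.IsWeil) (h1 : G.IsPolarized) (h2 : G.IsGeometric)
    (h3 : G.ShortLefschetz) : G.WeakLefschetz := by
  intro X M s i hX hi a ha
  obtain ⟨e, he, hea⟩ : ∃ e ∈ D.C X i, G.c M * e = a := by
    rcases Nat.lt_or_ge (D.dim X) (i + 1) with hlt | hge
    · refine ⟨0, zero_mem _, ?_⟩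
      rw [mul_zero]
      exact ((WeilData.toWeil h).C_eq_zero ha hlt).symm
    · obtain ⟨k, hk⟩ : ∃ k, 2 * i = D.dim X + k := ⟨2 * i - D.dim X, by omega⟩
      obtain ⟨j, hj⟩ : ∃ j, i + j = D.dim X := ⟨D.dim X - i, by omega⟩
      have h4 : a ∈ D.C X (j + (k + 1)) := by
        have h5 : j + (k + 1) = i + 1 := by omega
        rw [h5]
        exact ha
      obtain ⟨d, hd, hda⟩ := h3 X M j (k + 1) (by omega) a h4
      refine ⟨G.c M ^ k * d, ?_, ?_⟩
      · have h6 : G.c M ^ k * d ∈ D.C X (k + j) :=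
          h.cycle.mul _ _ _ _ ((WeilData.toWeil h).C_pow (h1.bundle.alg X M) k) _ hd
        have h5 : k + j = i := by omega
        rw [h5] at h6
        exact h6
      · rw [← hda, pow_succ', mul_assoc]
  refine ⟨D.pb (G.emb M s) e, h.functor.pull _ _ _ _ _ he, ?_⟩
  intro b
  rw [← hea]
  exact ((G.toGeo h h1 h2).tr_pull_mul M hX s b e).symm

theorem upper_of_weak (h : D.IsWeil) (h1 : G.IsPolarized) (h2 : G.IsGeometric)
    (h3 : G.WeakLefschetz) : G.VHCUpper := by
  intro X M i hX hi a ha _ s t hs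
  have h4 : G.c M * a ∈ D.C X (i + 1) := (G.toGeo h h1 h2).mul_mem_of_pull M hX ha s hs
  obtain ⟨y, hy, hya⟩ := h3 X M t i hX hi _ h4
  have h5 : D.pb (G.emb M t) a = y := by
    refine (G.toGeo h h1 h2).eq_of_push M hX hi t (h.pull.deg _ _ _ _ _ ha)
      (h.cycle.deg _ _ hy) fun e => ?_
    exact ((G.toGeo h h1 h2).tr_pull_mul M hX t e a).trans (hya e)
  rw [h5]
  exact hy

theorem middle_of_short (h3 : G.ShortLefschetz) : G.MiddleSurjective := by
  intro X M m hm a ha
  obtain ⟨e, he, hea⟩ := h3 X M m 1 (by omega) a ha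
  exact ⟨e, he, by rw [← hea, pow_one]⟩

theorem tfae (h : D.IsWeil) (h1 : G.IsPolarized) (h2 : G.IsGeometric) :
    [G.VHCUpper, G.VHCHyperplane, G.MiddleSurjective, G.ShortLefschetz, G.WeakLefschetz].TFAE := by
  tfae_have 1 → 2 := G.hyperplane_of_upper
  tfae_have 2 → 3 := G.divisible_of_hyperplane h h1 h2
  tfae_have 3 → 4 := G.short_of_middle h h1
  tfae_have 4 → 5 := G.weak_of_short h h1 h2
  tfae_have 5 → 1 := G.upper_of_weak h h1 h2
  tfae_finish

/-- the sign conjecture if there is no odd cohomology -/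
theorem sign_of_even (h : D.IsWeil) {X : V} (hX : ∀ i : ℕ, ∀ a ∈ D.deg X (2 * i + 1), a = 0) :
    SignConj D X := by
  rw [sign_iff h]
  refine ⟨(WeilData.toWeil h).diag X, (WeilData.toWeil h).C_diag X, ?_, ?_⟩
  · intro i a _
    rw [WeilTheory.act_diag, LinearMap.id_apply]
  · intro i a ha
    rw [hX i a ha, map_zero]

theorem nil_iff (h : D.IsWeil) (Z : V) : NilConj D Z ↔ Nil (WeilData.toWeil h) Z := by
  have key : ∀ (z : D.H (Z ⊗ Z)) (r : ℕ), (∀ a : D.H Z, (fun a => D.act z a)^[r] a = 0) ↔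
      ((WeilData.toWeil h).act z : Module.End ℝ (D.H Z)) ^ r = 0 := by
    intro z r
    have h1 : (fun a => D.act z a) = ⇑((WeilData.toWeil h).act z : Module.End ℝ (D.H Z)) := by
      funext a
      exact (WeilData.act_eq h z a).symm
    constructor
    · intro h2
      apply LinearMap.ext
      intro a
      rw [Module.End.pow_apply, ← h1]
      exact h2 a
    · intro h2 a
      rw [h1, ← Module.End.pow_apply, h2]
      rfl
  constructor
  · intro h1 z hz hnum
    obtain ⟨r, hr⟩ := h1 z hz (fun y hy => by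
      rw [zero_mul]
      exact (hnum y hy).trans (map_zero (D.tr (Z ⊗ Z))).symm)
    exact ⟨r, (key z r).mp hr⟩
  · intro h1 z hz hnum
    obtain ⟨r, hr⟩ := h1 z hz (fun y hy => by
      have h2 := hnum y hy
      rw [zero_mul] at h2
      exact h2.trans (map_zero (D.tr (Z ⊗ Z))))
    exact ⟨r, (key z r).mpr hr⟩

theorem conjB_iff_nil (h : D.IsWeil) (h1 : G.IsPolarized) (h3 : G.MiddleSurjective) {X : V}
    (M : G.Bund X) : G.ConjB M ↔ ∀ k : ℕ, NilConj D (G.P k ⊗ (X ⊗ X)) := by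
  rw [G.conjB_iff h h1]
  constructor
  · intro h2 k
    exact (nil_iff h _).mpr ((G.toPol h h1).nil_of_lef M h2 k)
  · intro h2
    exact (G.toPol h h1).lef_of_nil ((G.div_iff h h1).mp h3) M
      fun k => (nil_iff h _).mp (h2 k)

theorem consequences (h : D.IsWeil) (h1 : G.IsPolarized) (h2 : G.IsGeometric)
    (h3 : G.VHCUpper) : G.NumericalLefschetz ∧
      (∀ (X : V) (M : G.Bund X), [G.ConjB M, SignConj D X,
        ∀ k : ℕ, NilConj D (G.P k ⊗ (X ⊗ X))].TFAE) ∧
      ∀ (X : V) (M : G.Bund X), (∀ i : ℕ, ∀ a ∈ D.deg X (2 * i + 1), a = 0) → G.ConjB M := by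
  have h4 : G.MiddleSurjective := ((G.tfae h h1 h2).out 0 2).mp h3
  have h5 := (G.main h h1 h2).2.2.2.2 h4
  refine ⟨h5.1, fun X M => ?_, fun X M hX => (h5.2 X M).mpr (sign_of_even h hX)⟩
  tfae_have 1 ↔ 2 := h5.2 X M
  tfae_have 1 ↔ 3 := G.conjB_iff_nil h h1 h4 M
  tfae_finish

theorem tfae4 (h : D.IsWeil) (h1 : G.IsPolarized) (h2 : G.IsGeometric) :
    [G.VHCUpper, G.VHCHyperplane, G.ShortLefschetz, G.WeakLefschetz].TFAE := by
  have h3 := G.tfae h h1 h2
  tfae_have 1 ↔ 2 := h3.out 0 1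
  tfae_have 1 ↔ 3 := h3.out 0 3
  tfae_have 1 ↔ 4 := h3.out 0 4
  tfae_finish

end Geometry

end Pool.VHC
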