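import Pool.Agent.Work.MP_298761_ls.Nil

/-!
The middle degrees, if numerically trivial correspondences are nilpotent.
-/

open CategoryTheory MonoidalCategory CartesianMonoidalCategory

universe u v w b

namespace Pool.VHC

open Pool.KC

variable {V : Type u} [Category.{v} V] [CartesianMonoidalCategory V]
variable {T : WeilTheory.{u, v, w, 0} V ℝ} (G : Pol.{u, v, w, b} T)

namespace Pol

theorem no_K0' (hyp : G.Div) {Z : V} (hN : Nil T Z) {M : G.Bund Z} {m r : ℕ}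
    {g : Fin r → T.H Z} (h : Frame G M m r g) (hg : ∀ i, g i ∈ G.K0 M m)
    (hspan : ∀ x ∈ G.K0 M m, ∑ i, ((-1) ^ m * G.Q M x (g i)) • g i = x) (i0 : Fin r) : False := by
  have hdim := h.dim
  have hW : T.dim (Z ⊗ Z) = 4 * m + 2 := by rw [T.dim_prod]; omega
  have hWW : T.dim ((Z ⊗ Z) ⊗ (Z ⊗ Z)) = 8 * m + 4 := by rw [T.dim_prod]; omega
  set N := G.box M M with hN'
  set k0 := Frame.kap T g
  set k1 := Frame.kap1 T (G.c M) g with hk1
  set k2 := Frame.kap2 T (G.c M) g with hk2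
  have e0 : G.c N * k0 = k1 := Frame.box_kap M g
  have e1 : G.c N * k1 = (2 : ℝ) • k2 := h.box_kap1
  have e2 : G.c N * k2 = 0 := h.box_kap2
  obtain ⟨a, ha⟩ : ∃ a, a = T.pull (fst Z Z) (G.c M * g i0) * T.pull (snd Z Z) (G.c M * g i0) :=
    ⟨_, rfl⟩
  have haC : a ∈ T.C (Z ⊗ Z) (2 * m + 2) := by
    rw [ha]
    exact T.C_of_eq (T.C_mul (T.C_pull _ (h.alg i0)) (T.C_pull _ (h.alg i0))) (by omega)
  obtain ⟨d, hd, hda⟩ := G.onto_two hyp (G.box N N) (i := 4 * m + 1) (k := 2)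
    (a := T.pull (fst (Z ⊗ Z) (Z ⊗ Z)) a * T.pull (snd (Z ⊗ Z) (Z ⊗ Z)) a) (by omega)
    (T.C_of_eq (T.C_mul (T.C_pull _ haC) (T.C_pull _ haC)) (by omega))
  have hcc : G.c (G.box N N) ^ (2 + 1) * d =
      G.c (G.box N N) * (G.c (G.box N N) * (G.c (G.box N N) * d)) := by
    rw [← mul_assoc, ← mul_assoc, ← pow_two, ← pow_succ]
  rw [hcc] at hda
  have hk1d : k1 ∈ T.deg (Z ⊗ Z) (2 * (2 * m + 1)) :=
    T.deg_of_eq h.kap1_deg (by rw [hdim])
  have hk2d : k2 ∈ T.deg (Z ⊗ Z) (2 * (2 * m + 2)) := T.C_deg _ _ h.kap2_mem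
  -- trace with `kap`
  have hka : T.tr (Z ⊗ Z) (k0 * a) = 1 := by
    change T.tr (Z ⊗ Z) ((∑ i, T.pull (fst Z Z) (g i) * T.pull (snd Z Z) (g i)) * a) = 1
    rw [Finset.sum_mul, map_sum]
    have h1 : ∀ i, T.tr (Z ⊗ Z) (T.pull (fst Z Z) (g i) * T.pull (snd Z Z) (g i) * a) =
        if i = i0 then 1 else 0 := by
      intro i
      have h2 : T.pull (fst Z Z) (g i) * T.pull (snd Z Z) (g i) * a =
          T.pull (fst Z Z) (g i * (G.c M * g i0)) * T.pull (snd Z Z) (g i * (G.c M * g i0)) := by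
        rw [ha, map_mul (T.pull (fst Z Z)) (g i), map_mul (T.pull (snd Z Z)) (g i)]
        have h3 := T.even_comm (T.snd_deg (X := Z) (h.deg i))
          (T.pull (fst Z Z) (G.c M * g i0))
        rw [mul_assoc, mul_assoc, ← mul_assoc (T.pull (snd Z Z) (g i)), h3]
        simp only [mul_assoc]
      rw [h2, T.tr_prod, h.tr_glg]
      by_cases hi : i = i0
      · rw [if_pos hi, if_pos hi, Frame.sign_mul]
      · rw [if_neg hi, if_neg hi, mul_zero]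
    rw [Finset.sum_congr rfl fun i _ => h1 i, Finset.sum_ite_eq' Finset.univ i0 (fun _ => (1 : ℝ)),
      if_pos (Finset.mem_univ i0)]
  -- the image of `κ₂` is numerically trivial
  have hnum : ∀ d' ∈ T.C ((Z ⊗ Z) ⊗ (Z ⊗ Z)) (4 * m + 1), T.tr (Z ⊗ Z) (k1 * T.act d' k2) = 0 := by
    intro d' hd'
    have hη : T.act d' k2 ∈ T.C (Z ⊗ Z) (T.dim Z) := T.act_mem hd' h.kap2_mem (by omega)
    refine G.tr_kap1_eq_zero hyp hN h hg hspan hη fun y hy => ?_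
    have hy' : y ∈ T.deg (Z ⊗ Z) (2 * T.dim Z) := T.C_deg _ _ hy
    rw [T.tr_act_sw d' hk2d hy', ← T.tr_even_comm hk2d]
    exact G.kap2_orth' hyp h hg hspan (T.act_mem (T.C_pull _ hd') hy (by omega))
  -- the four terms
  set D := T.act d with hD
  have t1 : T.tr (Z ⊗ Z) (k1 * D k2) = 0 := hnum d hd
  have t2 : T.tr (Z ⊗ Z) (k2 * D k1) = 0 := by
    rw [T.tr_even_comm hk2d, hD, T.tr_act_sw d hk1d hk2d, ← T.tr_even_comm hk1d]
    exact hnum _ (T.C_pull _ hd)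
  have hcN : ∀ x y : T.H (Z ⊗ Z), x * (G.c N * y) = (G.c N * x) * y := by
    intro x y
    rw [← mul_assoc, G.c_comm N x]
  have f0 : ∀ y : T.H (Z ⊗ Z), T.tr (Z ⊗ Z) (k0 * (G.c N * y)) = T.tr (Z ⊗ Z) (k1 * y) := by
    intro y
    rw [hcN, e0]
  have f1 : ∀ y : T.H (Z ⊗ Z), T.tr (Z ⊗ Z) (k1 * (G.c N * y)) = 2 * T.tr (Z ⊗ Z) (k2 * y) := by
    intro y
    rw [hcN, e1, smul_mul_assoc, map_smul, smul_eq_mul]
  have f2 : ∀ y : T.H (Z ⊗ Z), T.tr (Z ⊗ Z) (k2 * (G.c N * y)) = 0 := by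
    intro y
    rw [hcN, e2, zero_mul, map_zero]
  have hfin : T.tr (Z ⊗ Z) (k0 * T.act (G.c (G.box N N) * (G.c (G.box N N) *
      (G.c (G.box N N) * d))) k0) = 0 := by
    simp only [G.act_box, e0, e1, e2, map_smul, map_zero, mul_add, map_add, mul_smul_comm,
      f0, f1, f2, mul_zero, smul_zero, ← hD, t1, t2, zero_add, add_zero]
  have h3 : T.act (T.pull (fst (Z ⊗ Z) (Z ⊗ Z)) a * T.pull (snd (Z ⊗ Z) (Z ⊗ Z)) a) k0 = a := by
    rw [T.act_pure, hka, one_smul]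
  rw [hda, h3, hka] at hfin
  norm_num at hfin

/-- **The middle degrees.** -/
theorem mid' (hyp : G.Div) {Z : V} (hN : Nil T Z) (M : G.Bund Z) {m : ℕ}
    (hn : T.dim Z = 2 * m + 1) {a : T.H Z} (ha : a ∈ T.C Z (m + 1)) :
    ∃ e ∈ T.C Z m, G.c M * e = a := by
  have h0 : ∀ x ∈ G.K0 M m, x = 0 := by
    obtain ⟨r, g, h1, h2, h3⟩ := G.exists_onb M hn (G.K0 M m) (fun x hx => hx.1)
    intro x hx
    rw [← h3 x hx]
    refine Finset.sum_eq_zero fun i _ => ?_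
    exact (G.no_K0' hyp hN h2 h1 h3 i).elim
  obtain ⟨d, hd, hda⟩ := G.onto_two hyp M (i := m) (k := 1) (by omega) (a := G.c M * a)
    (T.C_of_eq (T.C_mul (G.c_mem M) ha) (by omega))
  have ha' : a - G.c M * d ∈ T.C Z (m + 1) :=
    sub_mem ha (T.C_of_eq (T.C_mul (G.c_mem M) hd) (by omega))
  obtain ⟨x, hx, hxa⟩ := G.hard_surj M (i := 2 * m) (k := 1) (by omega) (a - G.c M * d)
    (T.deg_of_eq (T.C_deg _ _ ha') (by omega))
  rw [pow_one] at hxa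
  have hxK : x ∈ G.Kt M m := by
    refine ⟨hx, ?_, ?_⟩
    · rw [hxa, mul_sub, ← mul_assoc, ← pow_two]
      have : G.c M ^ (1 + 1) * d = G.c M ^ 2 * d := rfl
      rw [← this, hda, sub_self]
    · rw [hxa]
      exact ha'
  refine ⟨d + x, add_mem hd (G.Kt_le M hn h0 hxK), ?_⟩
  rw [mul_add, hxa]
  abel

end Pol

end Pool.VHC
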