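import Pool.Agent.Work.MP_298761_ls.Evn

/-!
Nilpotence of numerically trivial correspondences and the middle degrees.
-/

open CategoryTheory MonoidalCategory CartesianMonoidalCategory

universe u v w b

namespace Pool.VHC

open Pool.KC

variable {V : Type u} [Category.{v} V] [CartesianMonoidalCategory V]

/-- numerically trivial correspondences of degree zero are nilpotent -/
def Nil (T : WeilTheory.{u, v, w, 0} V ℝ) (Z : V) : Prop :=
  ∀ z ∈ T.C (Z ⊗ Z) (T.dim Z), (∀ y ∈ T.C (Z ⊗ Z) (T.dim Z), T.tr (Z ⊗ Z) (z * y) = 0) →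
    IsNilpotent (T.act z : Module.End ℝ (T.H Z))

variable {T : WeilTheory.{u, v, w, 0} V ℝ}

/-- the supertrace on `H(Z)` -/
noncomputable abbrev strZ (T : WeilTheory.{u, v, w, 0} V ℝ) (Z : V) :
    Module.End ℝ (T.H Z) →ₗ[ℝ] ℝ := str (T.proj Z) (2 * T.dim Z + 1)

theorem str_of_num {Z : V} {z : T.H (Z ⊗ Z)}
    (hz : ∀ y ∈ T.C (Z ⊗ Z) (T.dim Z), T.tr (Z ⊗ Z) (z * y) = 0)
    {f : Module.End ℝ (T.H Z)} (hf : f ∈ T.ops Z) : strZ T Z (f * T.act z) = 0 := by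
  obtain ⟨y, hy, rfl⟩ := hf
  have h1 := T.tr_mul_eq_str Z z (T.pull (Cohomology.swap Z) y)
  rw [T.swap_swap, hz _ (T.C_pull _ hy)] at h1
  exact h1.symm

theorem num_of_str {Z : V} {z : T.H (Z ⊗ Z)}
    (h : ∀ f ∈ T.ops Z, strZ T Z (f * T.act z) = 0) :
    ∀ y ∈ T.C (Z ⊗ Z) (T.dim Z), T.tr (Z ⊗ Z) (z * y) = 0 := by
  intro y hy
  rw [T.tr_mul_eq_str]
  exact h _ ⟨_, T.C_pull _ hy, rfl⟩

theorem Nil.ops {Z : V} (hN : Nil T Z) {z : T.H (Z ⊗ Z)} (hzC : z ∈ T.C (Z ⊗ Z) (T.dim Z))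
    (hz : ∀ y ∈ T.C (Z ⊗ Z) (T.dim Z), T.tr (Z ⊗ Z) (z * y) = 0)
    {u : Module.End ℝ (T.H Z)} (hu : u ∈ T.ops Z) : IsNilpotent (u * T.act z) := by
  obtain ⟨y, hy, hy'⟩ := mul_mem hu (⟨z, hzC, rfl⟩ : T.act z ∈ T.ops Z)
  rw [← hy']
  apply hN y hy
  apply num_of_str
  intro f hf
  rw [hy', ← mul_assoc]
  exact str_of_num hz (mul_mem hf hu)

theorem ops_mul_evp {Z : V} {f : Module.End ℝ (T.H Z)} (hf : f ∈ T.ops Z) :
    f * evp T Z = evp T Z * f := by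
  unfold evp
  rw [Finset.mul_sum, Finset.sum_mul]
  exact Finset.sum_congr rfl fun i _ => T.ops_mul_proj hf _

theorem nilpotent_evp {Z : V} {f : Module.End ℝ (T.H Z)} (hf : f ∈ T.ops Z)
    (h : IsNilpotent f) : LinearMap.trace ℝ (T.H Z) (f * evp T Z) = 0 := by
  have hc : Commute f (evp T Z) := ops_mul_evp hf
  exact (LinearMap.isNilpotent_trace_of_isNilpotent (hc.isNilpotent_mul_right h)).eq_zero

namespace Pol

variable (G : Pol.{u, v, w, b} T)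

/-- the trace of `π ∘ η` -/
theorem trace_pi {Z : V} {M : G.Bund Z} {m r : ℕ} {g : Fin r → T.H Z}
    (A : Module.End ℝ (T.H Z)) : LinearMap.trace ℝ (T.H Z) (Frame.pi T m (G.c M) g * A) =
      (-1 : ℝ) ^ m * ∑ i, (T.tr Z (A (G.c M * g i) * g i) + T.tr Z (A (g i) * (G.c M * g i))) := by
  have h1 : Frame.pi T m (G.c M) g * A = (-1 : ℝ) ^ m • ∑ i,
      (((T.tr Z ∘ₗ LinearMap.mulRight ℝ (G.c M * g i)) ∘ₗ A).smulRight (g i) +
        ((T.tr Z ∘ₗ LinearMap.mulRight ℝ (g i)) ∘ₗ A).smulRight (G.c M * g i)) := by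
    apply LinearMap.ext
    intro x
    rw [Module.End.mul_apply, Frame.pi_apply]
    simp only [LinearMap.smul_apply, LinearMap.sum_apply, LinearMap.add_apply,
      LinearMap.smulRight_apply, LinearMap.comp_apply, LinearMap.mulRight_apply]
  rw [h1, map_smul, map_sum, smul_eq_mul]
  congr 1
  refine Finset.sum_congr rfl fun i _ => ?_
  rw [map_add, LinearMap.trace_smulRight, LinearMap.trace_smulRight, add_comm]
  rfl

theorem tr_kap1 {Z : V} {M : G.Bund Z} {m r : ℕ} {g : Fin r → T.H Z} (h : Frame G M m r g)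
    (z : T.H (Z ⊗ Z)) : T.tr (Z ⊗ Z) (Frame.kap1 T (G.c M) g * z) =
      ∑ i, (T.tr Z (T.act z (G.c M * g i) * g i) + T.tr Z (T.act z (g i) * (G.c M * g i))) := by
  unfold Frame.kap1
  rw [Finset.sum_mul, map_sum]
  refine Finset.sum_congr rfl fun i _ => ?_
  rw [add_mul, map_add, T.tr_act, T.tr_act, mul_assoc, mul_assoc,
    T.even_comm (T.snd_deg (X := Z) (h.deg i)), T.even_comm (T.snd_deg (X := Z) (h.deg_lg i)),
    ← mul_assoc, ← mul_assoc]

/-- numerically trivial correspondences are orthogonal to `κ₁` -/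
theorem tr_kap1_eq_zero (hyp : G.Div) {Z : V} (hN : Nil T Z) {M : G.Bund Z} {m r : ℕ}
    {g : Fin r → T.H Z} (h : Frame G M m r g) (hg : ∀ i, g i ∈ G.K0 M m)
    (hspan : ∀ x ∈ G.K0 M m, ∑ i, ((-1) ^ m * G.Q M x (g i)) • g i = x) {z : T.H (Z ⊗ Z)}
    (hzC : z ∈ T.C (Z ⊗ Z) (T.dim Z))
    (hz : ∀ y ∈ T.C (Z ⊗ Z) (T.dim Z), T.tr (Z ⊗ Z) (z * y) = 0) :
    T.tr (Z ⊗ Z) (Frame.kap1 T (G.c M) g * z) = 0 := by
  obtain ⟨u, hu, huq⟩ := G.pi_evn hyp h hg hspan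
  have h1 : Frame.pi T m (G.c M) g * T.act z = (u * T.act z) * evp T Z := by
    refine end_ext ?_ ?_
    · intro i x hx
      rw [Module.End.mul_apply, Module.End.mul_apply, evp_even i x hx, Module.End.mul_apply]
      exact (huq i _ (T.act_deg (T.C_deg _ _ hzC) (by omega) hx)).symm
    · intro i x hx
      rw [Module.End.mul_apply, Module.End.mul_apply, evp_odd i x hx, map_zero]
      exact h.pi_odd (i := i) (T.act_deg (T.C_deg _ _ hzC) (by omega) hx)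
  have h2 : LinearMap.trace ℝ (T.H Z) (Frame.pi T m (G.c M) g * T.act z) = 0 := by
    rw [h1]
    exact nilpotent_evp (mul_mem hu ⟨z, hzC, rfl⟩) (hN.ops hzC hz hu)
  rw [G.trace_pi, ← G.tr_kap1 h] at h2
  exact (mul_eq_zero.mp h2).resolve_left (pow_ne_zero _ (by norm_num))

end Pol

end Pool.VHC
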