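import Pool.Agent.Work.MP_298761_ls.Mid

/-!
The sign conjecture implies that numerically trivial correspondences are nilpotent; and the
converse for products, under surjectivity above the middle.
-/

open CategoryTheory MonoidalCategory CartesianMonoidalCategory

universe u v w b

namespace Pool.VHC

open Pool.KC

variable {V : Type u} [Category.{v} V] [CartesianMonoidalCategory V]
variable {T : WeilTheory.{u, v, w, 0} V ℝ}

theorem evp_proj_even (Z : V) (i : ℕ) : evp T Z * T.proj Z (2 * i) = T.proj Z (2 * i) := by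
  apply LinearMap.ext
  intro x
  exact evp_even i _ (T.proj_mem _ _)

theorem evp_proj_odd (Z : V) (i : ℕ) : evp T Z * T.proj Z (2 * i + 1) = 0 := by
  apply LinearMap.ext
  intro x
  exact evp_odd i _ (T.proj_mem _ _)

theorem trace_eq_sum {Z : V} (f : Module.End ℝ (T.H Z)) : LinearMap.trace ℝ (T.H Z) f =
    ∑ i ∈ Finset.range (2 * T.dim Z + 1), LinearMap.trace ℝ (T.H Z) (f * T.proj Z i) := by
  rw [← map_sum, ← Finset.mul_sum, (T.projs Z).sum, mul_one]

theorem str_mul_evp {Z : V} (g : Module.End ℝ (T.H Z)) :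
    strZ T Z (g * evp T Z) = LinearMap.trace ℝ (T.H Z) (g * evp T Z) := by
  rw [str_apply, trace_eq_sum]
  refine Finset.sum_congr rfl fun i _ => ?_
  rcases Nat.even_or_odd' i with ⟨j, rfl | rfl⟩
  · rw [(even_two_mul j).neg_one_pow, one_mul]
  · rw [mul_assoc, evp_proj_odd, mul_zero, map_zero, mul_zero]

theorem str_mul_odd {Z : V} (g : Module.End ℝ (T.H Z)) :
    strZ T Z (g * (1 - evp T Z)) = - LinearMap.trace ℝ (T.H Z) (g * (1 - evp T Z)) := by
  rw [str_apply, trace_eq_sum, ← Finset.sum_neg_distrib]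
  refine Finset.sum_congr rfl fun i _ => ?_
  rcases Nat.even_or_odd' i with ⟨j, rfl | rfl⟩
  · rw [mul_assoc, sub_mul, one_mul, evp_proj_even, sub_self, mul_zero, map_zero, mul_zero,
      neg_zero]
  · rw [(odd_two_mul_add_one j).neg_one_pow, neg_one_mul]

theorem evp_mul_self (Z : V) : evp T Z * evp T Z = evp T Z := by
  refine end_ext ?_ ?_
  · intro i x hx
    rw [Module.End.mul_apply, evp_even i x hx, evp_even i x hx]
  · intro i x hx
    rw [Module.End.mul_apply, evp_odd i x hx, map_zero]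

theorem evp_mem_of_sign {Z : V} (hs : Sign T Z) : evp T Z ∈ T.ops Z := by
  obtain ⟨z, hz, h0, h1⟩ := hs
  refine ⟨z, hz, end_ext ?_ ?_⟩
  · intro i x hx
    rw [h0 i x hx, evp_even i x hx]
  · intro i x hx
    rw [h1 i x hx, evp_odd i x hx]

/-- the sign conjecture implies nilpotence -/
theorem nil_of_sign {Z : V} (hs : Sign T Z) : Nil T Z := by
  intro z hz hnum
  have hev := evp_mem_of_sign hs
  have hN : T.act z ∈ T.ops Z := ⟨z, hz, rfl⟩
  have hc : T.act z * evp T Z = evp T Z * T.act z := ops_mul_evp hN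
  have hc' : T.act z * (1 - evp T Z) = (1 - evp T Z) * T.act z := by
    rw [mul_sub, sub_mul, mul_one, one_mul, hc]
  have hq := evp_mul_self (T := T) Z
  have hq' : (1 - evp T Z) * (1 - evp T Z) = 1 - evp T Z := by
    rw [sub_mul, mul_sub, mul_sub, one_mul, mul_one, one_mul, hq, sub_self, sub_zero]
  have h1 : ∀ (q : Module.End ℝ (T.H Z)), q ∈ T.ops Z → T.act z * q = q * T.act z →
      q * q = q → (∀ g : Module.End ℝ (T.H Z), strZ T Z (g * q) = 0 →
        LinearMap.trace ℝ (T.H Z) (g * q) = 0) → IsNilpotent (T.act z * q) := by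
    intro q hqo hcq hqq hst
    apply isNilpotent_of_trace
    intro k hk
    rw [commute_pow_proj hcq hqq k hk]
    apply hst
    obtain ⟨k, rfl⟩ : ∃ j, k = j + 1 := ⟨k - 1, by omega⟩
    have h2 : T.act z ^ (k + 1) * q = T.act z ^ k * q * T.act z := by
      rw [pow_succ, mul_assoc, mul_assoc, hcq]
    rw [h2]
    exact str_of_num hnum (mul_mem (pow_mem hN k) hqo)
  obtain ⟨a, ha⟩ := h1 _ hev hc hq (fun g hg => by rwa [str_mul_evp] at hg)
  obtain ⟨b, hb⟩ := h1 _ (sub_mem (one_mem _) hev) hc' hq' (fun g hg => by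
    rw [str_mul_odd, neg_eq_zero] at hg
    exact hg)
  have hca : (T.act z * evp T Z) ^ (a + 1) = T.act z ^ (a + 1) * evp T Z :=
    commute_pow_proj hc hq _ (by omega)
  have hcb : (T.act z * (1 - evp T Z)) ^ (b + 1) = T.act z ^ (b + 1) * (1 - evp T Z) :=
    commute_pow_proj hc' hq' _ (by omega)
  have ha' : T.act z ^ (a + 1) * evp T Z = 0 := by
    rw [← hca, pow_succ, ha, zero_mul]
  have hb' : T.act z ^ (b + 1) * (1 - evp T Z) = 0 := by
    rw [← hcb, pow_succ, hb, zero_mul]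
  refine ⟨(a + 1) + (b + 1), ?_⟩
  have h3 : T.act z ^ (a + 1 + (b + 1)) = T.act z ^ (a + 1 + (b + 1)) * evp T Z +
      T.act z ^ (a + 1 + (b + 1)) * (1 - evp T Z) := by
    rw [← mul_add, add_sub_cancel, mul_one]
  rw [h3]
  have h4 : T.act z ^ (a + 1 + (b + 1)) * evp T Z = 0 := by
    rw [add_comm (a + 1), pow_add, mul_assoc, ha', mul_zero]
  have h5 : T.act z ^ (a + 1 + (b + 1)) * (1 - evp T Z) = 0 := by
    rw [pow_add, mul_assoc, hb', mul_zero]
  rw [h4, h5, add_zero]

namespace Pol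

variable (G : Pol.{u, v, w, b} T)

theorem hla_of_nil (hyp : G.Div) {Y : V} (M : G.Bund Y) (hs : ∀ k, Nil T (G.P k ⊗ Y)) :
    G.HLA M := by
  intro i k hik a ha
  cases k with
  | zero => exact ⟨a, ha, by rw [pow_zero, one_mul]⟩
  | succ k =>
    have hdim : T.dim (G.P k ⊗ Y) = 2 * (i + k) + 1 := by
      rw [T.dim_prod, G.P_dim]
      omega
    obtain ⟨e, he, h⟩ := G.mid' hyp (hs k) (G.box (G.O1 k) M) hdim
      (T.C_pull (snd (G.P k) Y) ha)
    exact G.descent M k i he h

theorem lef_of_nil (hyp : G.Div) {X : V} (M : G.Bund X)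
    (hs : ∀ k, Nil T (G.P k ⊗ (X ⊗ X))) : G.Lef M :=
  G.lef_of_hla M (G.hla_of_nil hyp _ hs)

theorem nil_of_lef {X : V} (M : G.Bund X) (h : G.Lef M) (k : ℕ) :
    Nil T (G.P k ⊗ (X ⊗ X)) :=
  nil_of_sign (sign_prod (G.sign_P k) (sign_prod (G.sign_of_lef M h) (G.sign_of_lef M h)))

end Pol

end Pool.VHC
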